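import Pool.Agent.Work.MP_bd4052_lc_helper82.P2

set_option autoImplicit false

namespace Pool.Agent.Work.MP_bd4052_lc

/-- BLOCK POLY -/
theorem stmt_POLY : Stmt_POLY := PO.stmt_POLY

end Pool.Agent.Work.MP_bd4052_lc
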