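import Pool.Agent.Work.MP_bd4052_lc_helper82.FINAL
import Pool.Agent.Work.MP_bd4052_lc_helper82.POLY
import Pool.Agent.Work.MP_bd4052_lc_helper52.GEO1
import Pool.Agent.Work.MP_bd4052_lc_helper52.GEO2
import Pool.Agent.Work.MP_bd4052_lc_helper52.OCT
import Pool.Agent.Work.MP_bd4052_lc_helper52.PARSE
import Pool.Agent.Work.MP_bd4052_lc_helper48.REF
import Pool.Agent.Work.MP_bd4052_lc_helper48.HOM
import Pool.Agent.Work.MP_bd4052_lc_helper48.ORI
import Pool.Agent.Work.MP_bd4052_lc_helper30.CRE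
import Pool.Agent.Work.MP_bd4052_lc_helper30.INT
import Pool.Agent.Work.MP_bd4052_lc_helper72.COR
import Pool.Agent.Work.MP_bd4052_lc_helper72.ABS1
import Pool.Agent.Work.MP_bd4052_lc_helper72.ABS2
import Pool.Agent.Work.MP_bd4052_lc_helper23.Sem0
import Pool.Agent.Work.MP_bd4052_lc_helper23.Sem1
import Pool.Agent.Work.MP_bd4052_lc_helper23.Dir
import Pool.Agent.Work.MP_bd4052_lc_helper23.Sem2
import Pool.Agent.Work.MP_bd4052_lc_helper23.Sem

/-!
All blocks together.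
-/

set_option autoImplicit false

namespace Pool.Agent.Work.MP_bd4052_lc

theorem all_ORI : Stmt_ORI := by
  have hS0 : Stmt_SEM0 := stmt_SEM0 stmt_GEO1
  have hS1 : Stmt_SEM1 := stmt_SEM1 stmt_GEO1 stmt_REF
  have hD : Stmt_DIR := stmt_DIR stmt_GEO1
  have hS2 : Stmt_SEM2 := stmt_SEM2 stmt_GEO1 stmt_REF hD
  have hS : Stmt_SEM := stmt_SEM hS1 hS2
  have hC : Stmt_COR := stmt_COR stmt_GEO1 stmt_GEO2
  exact stmt_ORI stmt_GEO2 hS0 hS (stmt_CRE stmt_GEO2) (stmt_CHO stmt_GEO2)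
    (stmt_ABS1 stmt_OCT stmt_GEO1 stmt_GEO2 stmt_REF stmt_INT hS0) (stmt_ABS2 hC)

theorem stmt_Final : Stmt_Final := FIN.final all_ORI stmt_HOM stmt_POLY stmt_PARSE

end Pool.Agent.Work.MP_bd4052_lc
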