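import Pool.Agent.Work.MP_bd4052_lc.Interface

/-!
Block FINAL: assembly.
-/

set_option autoImplicit false

namespace Pool.Agent.Work.MP_bd4052_lc

open TMLib MP_013ca9_lc_F

namespace FIN

/-- the input alphabet -/
def eA : Option Bool ≃ Fin 3 where
  toFun o := match o with
    | none => 0
    | some false => 1
    | some true => 2
  invFun i := if i = 0 then none else if i = 1 then some false else some true
  left_inv := by rintro (_ | _ | _) <;> rfl
  right_inv := by decide

/-- the output alphabet -/
def eB : Bool ≃ Fin 2 where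
  toFun b := bif b then 1 else 0
  invFun i := if i = 0 then false else true
  left_inv := by rintro (_ | _) <;> rfl
  right_inv := by decide

theorem hom_bzval {D : ℕ} (hD : 0 < D) : NumHom BZ (bzval D) where
  zero := by
    show (((0 : ℕ) : ℝ) - ((0 : ℕ) : ℝ)) / D = 0
    simp
  add x y := by
    show (((x.1.val + y.1.val : ℕ) : ℝ) - ((x.2.val + y.2.val : ℕ) : ℝ)) / D =
      ((x.1.val : ℝ) - x.2.val) / D + ((y.1.val : ℝ) - y.2.val) / D
    push_cast
    ring
  neg x := by
    show ((x.2.val : ℝ) - x.1.val) / D = -(((x.1.val : ℝ) - x.2.val) / D)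
    ring
  lt x y := by
    show decide (x.1.val + y.2.val < y.1.val + x.2.val) =
      decide (((x.1.val : ℝ) - x.2.val) / D < ((y.1.val : ℝ) - y.2.val) / D)
    have hD' : (0 : ℝ) < D := by exact_mod_cast hD
    rw [Bool.eq_iff_iff, decide_eq_true_iff, decide_eq_true_iff, div_lt_div_iff_of_pos_right hD',
      ← Nat.cast_lt (α := ℝ)]
    push_cast
    constructor <;> intro h <;> linarith

open Classical in
theorem final (hO : Stmt_ORI) (hH : Stmt_HOM) (hP : Stmt_POLY) (hPA : Stmt_PARSE) :
    Stmt_Final := by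
  obtain ⟨P, hPf, hPs⟩ := hPA
  unfold Stmt_Final
  have hg : PolyF (fun w : List (Fin 3) => ([bif alg (P w).1 (P w).2 then 1 else 0] :
      List (Fin 2))) := by
    have h1 : PolyF (fun w : List (Fin 3) => alg (P w).1 (P w).2) :=
      PolyF.comp (f := fun p : Rec BZ × List (Cr BZ) => alg p.1 p.2) hP hPf
    fun_prop
  refine PolyTime.of_PolyF eA eB hg ?_
  rintro ⟨m, hm⟩
  obtain ⟨D, hD, h1, h2⟩ := hPs m
  have h3 := hH BZ (bzval D) (hom_bzval hD) (P ((encMap m).map eA)).1 (P ((encMap m).map eA)).2
  have e1 : mapRec (bzval D) (P ((encMap m).map eA)).1 = recR m := h1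
  have e2 : (P ((encMap m).map eA)).2.map (mapCr (bzval D)) = cresR m := h2
  rw [e1, e2] at h3
  simp only
  rw [h3]
  by_cases h : SimplyFoldable m
  · rw [(hO m hm).1 h]
    simp [h, eB]
  · have h4 : alg (recR m) (cresR m) = false := by
      rw [← Bool.not_eq_true]
      exact fun h5 => h ((hO m hm).2 h5)
    rw [h4]
    simp [h, eB]

end FIN

end Pool.Agent.Work.MP_bd4052_lc
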