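import Pool.Agent.Work.MP_bd4052_lc.Interface

/-!
Block POLY, part 1: numbers.
-/

set_option autoImplicit false

namespace Pool.Agent.Work.MP_bd4052_lc

open TMLib MP_013ca9_lc_F Turing Polynomial

namespace PO

variable {α β γ δ : Type} [DE α] [DE β] [DE γ] [DE δ]

/-! ### comparison of binary numbers -/

/-- comparison of digits, least significant digit first -/
def ltB : Bool → List Bool → List Bool → Bool
  | r, [], l => r || !l.isEmpty
  | r, b :: l', l => ltB (bif b then (bif l.headD false then r else false)
      else (bif l.headD false then true else r)) l' l.tail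

theorem bits_isEmpty (n : ℕ) : n.bits.isEmpty = decide (n = 0) := by
  induction n using Nat.binaryRec' with
  | zero => simp
  | bit b n h _ =>
    rw [Nat.bits_append_bit n b h]
    have : Nat.bit b n ≠ 0 := by
      intro h0
      cases b
      · have : n = 0 := by simpa [Nat.bit] using h0
        exact absurd (h this) (by simp)
      · simp [Nat.bit] at h0
    simp [this]

theorem ltB_bits (m n : ℕ) (r : Bool) : ltB r m.bits n.bits = decide (m < n ∨ (m = n ∧ r = true)) := by
  induction m using Nat.binaryRec' generalizing n r with
  | zero =>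
    simp only [Nat.zero_bits, ltB, bits_isEmpty]
    cases r <;> by_cases h : n = 0 <;> simp [h, Nat.pos_iff_ne_zero, eq_comm]
  | bit b m h ih =>
    rw [Nat.bits_append_bit m b h]
    simp only [ltB, bits_headD, bits_tail, ih]
    conv_rhs => rw [← Nat.bit_bodd_div2 n]
    generalize n.bodd = y
    generalize n.div2 = k
    rw [Bool.eq_iff_iff]
    simp only [decide_eq_true_eq]
    cases b <;> cases y <;> cases r <;> simp [Nat.bit] <;> omega

/-- one step -/
def ltStep (s : Bool × List Bool) (b : Bool) : Bool × List Bool :=
  (bif b then (bif s.2.headD false then s.1 else false) else (bif s.2.headD false then true else s.1),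
    s.2.tail)

theorem ltStep_fold (r : Bool) (l' l : List Bool) :
    (fun s : Bool × List Bool => s.1 || !s.2.isEmpty) (l'.foldl ltStep (r, l)) = ltB r l' l := by
  induction l' generalizing r l with
  | nil => rfl
  | cons b l' ih =>
    simp only [List.foldl_cons] at ih ⊢
    rw [show ltStep (r, l) b = (bif b then (bif l.headD false then r else false)
      else (bif l.headD false then true else r), l.tail) from rfl, ih]
    rfl

theorem PolyF.ltB' : PolyF (fun p : List Bool × List Bool => ltB false p.1 p.2) := by
  have hstep : PolyF (fun p : (List Bool × List Bool) × (Bool × List Bool) × Bool =>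
      ltStep p.2.1 p.2.2) := by
    unfold ltStep
    fun_prop
  have h : PolyF (fun p : List Bool × List Bool => p.1.foldl ltStep (false, p.2)) := by
    refine PolyF.foldl_add (l := fun p : List Bool × List Bool => p.1)
      (g := fun p => (false, p.2)) (h := fun _ s b => ltStep s b)
      (by fun_prop) (by fun_prop) hstep 8 ?_
    intro a s b _
    have h1 := sz_bool_le (bif b then (bif s.2.headD false then s.1 else false)
      else (bif s.2.headD false then true else s.1))
    have h3 := sz_tail_le s.2
    have h4 := sz_pos s.1
    simp only [ltStep, sz_pair, eval_ofNat]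
    omega
  have h2 : PolyF (fun p : List Bool × List Bool =>
      (fun s : Bool × List Bool => s.1 || !s.2.isEmpty) (p.1.foldl ltStep (false, p.2))) := by
    refine PolyF.comp (f := fun s : Bool × List Bool => s.1 || !s.2.isEmpty) ?_ h
    fun_prop
  exact h2.congrF fun p => ltStep_fold false p.1 p.2

@[fun_prop]
theorem PolyF.ltBN {f g : α → BN} (hf : PolyF f) (hg : PolyF g) :
    PolyF (fun a => decide ((f a).val < (g a).val)) := by
  have h : PolyF (fun a => ltB false (f a).val.bits (g a).val.bits) :=
    PolyF.comp (f := fun p : List Bool × List Bool => ltB false p.1 p.2)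
      (g := fun a => ((f a).val.bits, (g a).val.bits)) PolyF.ltB' (by fun_prop)
  exact h.congrF fun a => by simp [ltB_bits]

/-! ### differences of binary numbers -/

@[fun_prop]
theorem PolyF.nadd {f g : α → BZ} (hf : PolyF f) (hg : PolyF g) :
    PolyF (fun a => (Num.add (f a) (g a) : BZ)) := by
  have : PolyF (fun a => ((⟨(f a).1.val + (g a).1.val⟩, ⟨(f a).2.val + (g a).2.val⟩) : BZ)) := by
    fun_prop
  exact this

@[fun_prop]
theorem PolyF.nneg {f : α → BZ} (hf : PolyF f) : PolyF (fun a => (Num.neg (f a) : BZ)) := by
  have : PolyF (fun a => (((f a).2, (f a).1) : BZ)) := by fun_prop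
  exact this

@[fun_prop]
theorem PolyF.nlt {f g : α → BZ} (hf : PolyF f) (hg : PolyF g) :
    PolyF (fun a => Num.lt (f a) (g a)) := by
  have : PolyF (fun a => decide ((BN.mk ((f a).1.val + (g a).2.val)).val <
    (BN.mk ((g a).1.val + (f a).2.val)).val)) := by fun_prop
  exact this

@[fun_prop]
theorem PolyF.nsub {f g : α → BZ} (hf : PolyF f) (hg : PolyF g) :
    PolyF (fun a => (nsub (f a) (g a) : BZ)) := by
  unfold MP_bd4052_lc.nsub
  fun_prop

@[fun_prop]
theorem PolyF.neqb {f g : α → BZ} (hf : PolyF f) (hg : PolyF g) :
    PolyF (fun a => neqb (f a) (g a)) := by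
  unfold MP_bd4052_lc.neqb
  fun_prop

/-! ### remainders -/

theorem iter_mod8 (n : ℕ) :
    (fun s => bif decide (s = 7) then 0 else s + 1)^[n] 0 = n % 8 := by
  induction n with
  | zero => simp
  | succ n ih =>
    rw [Function.iterate_succ_apply', ih]
    by_cases h : n % 8 = 7
    · simp only [h, decide_true, cond_true]
      omega
    · simp only [h, decide_false, cond_false]
      omega

theorem iter_mod2 (n : ℕ) :
    (fun s => bif decide (s = 1) then 0 else s + 1)^[n] 0 = n % 2 := by
  induction n with
  | zero => simp
  | succ n ih =>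
    rw [Function.iterate_succ_apply', ih]
    by_cases h : n % 2 = 1
    · simp only [h, decide_true, cond_true]
      omega
    · simp only [h, decide_false, cond_false]
      omega

@[fun_prop]
theorem PolyF.mod8 {f : α → ℕ} (hf : PolyF f) : PolyF (fun a => f a % 8) := by
  refine (PolyF.iterate_add (n := f) (g := fun _ => 0)
    (h := fun _ s => bif decide (s = 7) then 0 else s + 1) hf (by fun_prop) (by fun_prop) 2
    (fun a s => ?_)).congrF fun a => iter_mod8 _
  by_cases h : s = 7
  · simp [h]
  · simp [h]
    omega

@[fun_prop]
theorem PolyF.mod2 {f : α → ℕ} (hf : PolyF f) : PolyF (fun a => f a % 2) := by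
  refine (PolyF.iterate_add (n := f) (g := fun _ => 0)
    (h := fun _ s => bif decide (s = 1) then 0 else s + 1) hf (by fun_prop) (by fun_prop) 2
    (fun a s => ?_)).congrF fun a => iter_mod2 _
  by_cases h : s = 1
  · simp [h]
  · simp [h]
    omega

/-! ### sizes -/

/-- size of a difference of binary numbers -/
def bsz (x : BZ) : ℕ := max x.1.val.size x.2.val.size

theorem bsz_le_sz (x : BZ) : bsz x ≤ sz x := by
  have h1 := size_le_sz x.1.val
  have h2 := size_le_sz x.2.val
  have h3 : sz x = sz x.1 + sz x.2 + 1 := rfl
  have h4 : sz (BN.mk x.1.val) = sz x.1 := rfl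
  have h5 : sz (BN.mk x.2.val) = sz x.2 := rfl
  unfold bsz
  omega

theorem sz_le_bsz (x : BZ) : sz x ≤ 8 * bsz x + 3 := by
  have h1 := sz_BN_le x.1.val
  have h2 := sz_BN_le x.2.val
  have h3 : sz x = sz x.1 + sz x.2 + 1 := rfl
  have h4 : sz (BN.mk x.1.val) = sz x.1 := rfl
  have h5 : sz (BN.mk x.2.val) = sz x.2 := rfl
  unfold bsz
  omega

theorem size_add_le (m n : ℕ) : (m + n).size ≤ max m.size n.size + 1 := by
  rw [Nat.size_le, pow_succ]
  have h1 : m < 2 ^ max m.size n.size :=
    (Nat.lt_size_self m).trans_le (Nat.pow_le_pow_right (by norm_num) (le_max_left _ _))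
  have h2 : n < 2 ^ max m.size n.size :=
    (Nat.lt_size_self n).trans_le (Nat.pow_le_pow_right (by norm_num) (le_max_right _ _))
  omega

theorem bsz_add (x y : BZ) : bsz (Num.add x y) ≤ max (bsz x) (bsz y) + 1 := by
  have h1 := size_add_le x.1.val y.1.val
  have h2 := size_add_le x.2.val y.2.val
  show max (x.1.val + y.1.val).size (x.2.val + y.2.val).size ≤ _
  unfold bsz
  omega

theorem bsz_neg (x : BZ) : bsz (Num.neg x) = bsz x := by
  show max x.2.val.size x.1.val.size = _
  unfold bsz
  omega

theorem bsz_sub (x y : BZ) : bsz (nsub x y) ≤ max (bsz x) (bsz y) + 1 := by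
  unfold nsub
  have := bsz_add x (Num.neg y)
  rwa [bsz_neg] at this

theorem bsz_nlam (i j : ℕ) (b d : BZ) : bsz (nlam i j b d) ≤ max (bsz b) (bsz d) + 2 := by
  have h1 := bsz_sub b d
  have h2 := bsz_sub (nsub b d) d
  have h3 := bsz_add b d
  have h4 := bsz_add (Num.add b d) d
  unfold nlam
  generalize decide ((i + 8 - j) % 8 = 0) = c0
  generalize decide ((i + 8 - j) % 8 = 4) = c4
  generalize (decide ((i + 8 - j) % 8 = 1) || decide ((i + 8 - j) % 8 = 7)) = c1
  generalize decide (j % 2 = 0) = c2
  generalize (decide ((i + 8 - j) % 8 = 3) || decide ((i + 8 - j) % 8 = 5)) = c3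
  generalize nsub (nsub b d) d = y2 at *
  generalize nsub b d = y1 at *
  generalize (Num.add (Num.add b d) d : BZ) = y4 at *
  generalize (Num.add b d : BZ) = y3 at *
  cases c0
  · cases c4
    · cases c1
      · cases c3
        · simp only [cond_false]
          omega
        · cases c2
          · simp only [cond_false, cond_true]
            omega
          · simp only [cond_false, cond_true]
            omega
      · cases c2
        · simp only [cond_false, cond_true]
          omega
        · simp only [cond_false, cond_true]
          omega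
    · simp only [cond_false, cond_true]
      omega
  · simp only [cond_true]
    omega

end PO

end Pool.Agent.Work.MP_bd4052_lc
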