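import Pool.Agent.Work.MP_bd4052_lc_helper82.P1

/-!
Block POLY, part 2: the algorithm runs in polynomial time.
-/

set_option autoImplicit false

namespace Pool.Agent.Work.MP_bd4052_lc

open TMLib MP_013ca9_lc_F Turing Polynomial

namespace PO

variable {α β γ δ : Type} [DE α] [DE β] [DE γ] [DE δ]

/-! ### more on lists -/

theorem PolyF.any {l : α → List β} {f : α → β → Bool} (hl : PolyF l)
    (hf : PolyF (fun p : α × β => f p.1 p.2)) : PolyF (fun a => (l a).any (f a)) := by
  have h : PolyF (fun a => !((l a).all (fun b => !(f a b)))) := by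
    refine PolyF.not (PolyF.all hl (f := fun a b => !(f a b)) ?_)
    fun_prop
  refine h.congrF fun a => ?_
  induction l a with
  | nil => rfl
  | cons b u ih =>
    simp only [List.all_cons, List.any_cons, ← ih]
    cases f a b <;> simp

@[fun_prop]
theorem PolyF.contains {l : α → List ℕ} {n : α → ℕ} (hl : PolyF l) (hn : PolyF n) :
    PolyF (fun a => (l a).contains (n a)) := by
  have h : PolyF (fun a => (l a).any (fun b => decide (n a = b))) := by
    refine PolyF.any hl ?_
    fun_prop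
  refine h.congrF fun a => ?_
  rw [Bool.eq_iff_iff]
  simp

@[fun_prop]
theorem PolyF.bbeq {f g : α → Bool} (hf : PolyF f) (hg : PolyF g) :
    PolyF (fun a => f a == g a) := by
  have : PolyF (fun a => bif f a then g a else !(g a)) := by fun_prop
  refine this.congrF fun a => ?_
  cases f a <;> cases g a <;> rfl

@[fun_prop]
theorem PolyF.bbne {f g : α → Bool} (hf : PolyF f) (hg : PolyF g) :
    PolyF (fun a => f a != g a) := by
  have : PolyF (fun a => bif f a then !(g a) else g a) := by fun_prop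
  refine this.congrF fun a => ?_
  cases f a <;> cases g a <;> rfl

section
variable [DecidableEq α]

/-- comparison of lists, one step -/
def eqStep (s : Bool × List α) (b : α) : Bool × List α :=
  (s.1 && (!s.2.isEmpty && decide (b = s.2.headD b)), s.2.tail)

omit [DE α] in
theorem eqStep_fold (l l' : List α) (c : Bool) :
    (fun s : Bool × List α => s.1 && s.2.isEmpty) (l.foldl eqStep (c, l')) =
      (c && decide (l = l')) := by
  induction l generalizing l' c with
  | nil =>
    cases l' <;> simp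
  | cons b l ih =>
    simp only [List.foldl_cons] at ih ⊢
    rw [eqStep, ih]
    cases l' with
    | nil => simp
    | cons b' l' =>
      by_cases h1 : b = b'
      · by_cases h2 : l = l'
        · simp [h1, h2]
        · simp [h1, h2]
      · simp [h1]

instance [PEq α] : PEq (List α) := ⟨by
  have hstep : PolyF (fun p : (List α × List α) × (Bool × List α) × α =>
      eqStep p.2.1 p.2.2) := by
    unfold eqStep
    fun_prop
  have h : PolyF (fun p : List α × List α => p.1.foldl eqStep (true, p.2)) := by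
    refine PolyF.foldl_add (l := fun p : List α × List α => p.1)
      (g := fun p => (true, p.2)) (h := fun _ s b => eqStep s b)
      (by fun_prop) (by fun_prop) hstep 8 ?_
    intro a s b _
    have h1 := sz_bool_le (s.1 && (!s.2.isEmpty && decide (b = s.2.headD b)))
    have h3 := sz_tail_le s.2
    have h4 := sz_pos s.1
    simp only [eqStep, sz_pair, eval_ofNat]
    omega
  have h2 : PolyF (fun p : List α × List α =>
      (fun s : Bool × List α => s.1 && s.2.isEmpty) (p.1.foldl eqStep (true, p.2))) := by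
    refine PolyF.comp (f := fun s : Bool × List α => s.1 && s.2.isEmpty) ?_ h
    fun_prop
  exact h2.congrF fun p => by rw [eqStep_fold]; simp⟩

end

/-! ### numbers -/

@[fun_prop]
theorem PolyF.ndot {i : α → ℕ} {x y : α → BZ} (hi : PolyF i) (hx : PolyF x) (hy : PolyF y) :
    PolyF (fun a => (ndot (i a) (x a) (y a) : BZ)) := by
  unfold MP_bd4052_lc.ndot
  fun_prop

@[fun_prop]
theorem PolyF.nlam {i j : α → ℕ} {x y : α → BZ} (hi : PolyF i) (hj : PolyF j) (hx : PolyF x)
    (hy : PolyF y) : PolyF (fun a => (nlam (i a) (j a) (x a) (y a) : BZ)) := by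
  unfold MP_bd4052_lc.nlam
  fun_prop

@[fun_prop]
theorem PolyF.cneg {f : α → Con BZ} (hf : PolyF f) : PolyF (fun a => (cneg (f a) : Con BZ)) := by
  unfold MP_bd4052_lc.cneg
  fun_prop

@[fun_prop]
theorem PolyF.rectC {f : α → Rec BZ} (hf : PolyF f) :
    PolyF (fun a => (rectC (f a) : List (Con BZ))) := by
  unfold MP_bd4052_lc.rectC
  fun_prop

@[fun_prop]
theorem PolyF.creflect {j : α → ℕ} {d : α → BZ} {f : α → Con BZ} (hj : PolyF j) (hd : PolyF d)
    (hf : PolyF f) : PolyF (fun a => (creflect (j a) (d a) (f a) : Con BZ)) := by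
  unfold MP_bd4052_lc.creflect
  fun_prop

@[fun_prop]
theorem PolyF.ctest {f : α → List (Con BZ)} (hf : PolyF f) : PolyF (fun a => ctest (f a)) := by
  refine PolyF.comp (f := fun L : List (Con BZ) => MP_bd4052_lc.ctest L) ?_ hf
  unfold MP_bd4052_lc.ctest
  refine PolyF.and ?_ ?_
  · refine PolyF.all (by fun_prop) ?_
    refine PolyF.all (by fun_prop) ?_
    fun_prop
  · refine PolyF.all (by fun_prop) ?_
    refine PolyF.all (by fun_prop) ?_
    refine PolyF.all (by fun_prop) ?_
    fun_prop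

/-! ### caps -/

@[fun_prop]
theorem PolyF.cproper {r : α → Rec BZ} {f : α → Con BZ} (hr : PolyF r) (hf : PolyF f) :
    PolyF (fun a => cproper (r a) (f a)) := by
  unfold MP_bd4052_lc.cproper
  fun_prop

@[fun_prop]
theorem PolyF.csub {r : α → Rec BZ} {f g : α → Con BZ} (hr : PolyF r) (hf : PolyF f)
    (hg : PolyF g) : PolyF (fun a => csub (r a) (f a) (g a)) := by
  unfold MP_bd4052_lc.csub
  fun_prop

@[fun_prop]
theorem PolyF.cdisj {r : α → Rec BZ} {f g : α → Con BZ} (hr : PolyF r) (hf : PolyF f)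
    (hg : PolyF g) : PolyF (fun a => cdisj (r a) (f a) (g a)) := by
  unfold MP_bd4052_lc.cdisj
  fun_prop

@[fun_prop]
theorem PolyF.capAt {C : α → List (Cap BZ)} {i : α → ℕ} (hC : PolyF C) (hi : PolyF i) :
    PolyF (fun a => (capAt (C a) (i a) : Cap BZ)) := by
  unfold MP_bd4052_lc.capAt
  fun_prop

@[fun_prop]
theorem PolyF.isub {r : α → Rec BZ} {C : α → List (Cap BZ)} {i j : α → ℕ} (hr : PolyF r)
    (hC : PolyF C) (hi : PolyF i) (hj : PolyF j) :
    PolyF (fun a => isub (r a) (C a) (i a) (j a)) := by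
  unfold MP_bd4052_lc.isub
  fun_prop

@[fun_prop]
theorem PolyF.idisj {r : α → Rec BZ} {C : α → List (Cap BZ)} {i j : α → ℕ} (hr : PolyF r)
    (hC : PolyF C) (hi : PolyF i) (hj : PolyF j) :
    PolyF (fun a => idisj (r a) (C a) (i a) (j a)) := by
  unfold MP_bd4052_lc.idisj
  fun_prop

@[fun_prop]
theorem PolyF.laminar {r : α → Rec BZ} {C : α → List (Cap BZ)} (hr : PolyF r)
    (hC : PolyF C) : PolyF (fun a => laminar (r a) (C a)) := by
  unfold MP_bd4052_lc.laminar
  refine PolyF.all (by fun_prop) ?_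
  refine PolyF.and (by fun_prop) ?_
  refine PolyF.all (by fun_prop) ?_
  fun_prop

@[fun_prop]
theorem PolyF.depth {r : α → Rec BZ} {C : α → List (Cap BZ)} {i : α → ℕ} (hr : PolyF r)
    (hC : PolyF C) (hi : PolyF i) : PolyF (fun a => depth (r a) (C a) (i a)) := by
  unfold MP_bd4052_lc.depth
  refine PolyF.length ?_
  refine PolyF.filter (by fun_prop) ?_
  fun_prop

@[fun_prop]
theorem PolyF.chain {r : α → Rec BZ} {C : α → List (Cap BZ)} {i : α → ℕ} (hr : PolyF r)
    (hC : PolyF C) (hi : PolyF i) : PolyF (fun a => chain (r a) (C a) (i a)) := by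
  unfold MP_bd4052_lc.chain
  refine PolyF.flatMap (by fun_prop) ?_
  refine PolyF.filter (by fun_prop) ?_
  fun_prop

@[fun_prop]
theorem PolyF.upf {r : α → Rec BZ} {C : α → List (Cap BZ)} {i : α → ℕ} (hr : PolyF r)
    (hC : PolyF C) (hi : PolyF i) : PolyF (fun a => upf (r a) (C a) (i a)) := by
  unfold MP_bd4052_lc.upf
  fun_prop

@[fun_prop]
theorem PolyF.base {r : α → Rec BZ} {C : α → List (Cap BZ)} {dn : α → List ℕ} {k : α → ℕ}
    (hr : PolyF r) (hC : PolyF C) (hd : PolyF dn) (hk : PolyF k) :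
    PolyF (fun a => (base (r a) (C a) (dn a) (k a) : List (Con BZ))) := by
  unfold MP_bd4052_lc.base
  refine PolyF.append (by fun_prop) (PolyF.cond (by fun_prop) ?_ ?_)
  · refine PolyF.map (by fun_prop) ?_
    fun_prop
  · refine PolyF.cons (by fun_prop) ?_
    refine PolyF.map ?_ ?_
    · refine PolyF.filter (by fun_prop) ?_
      fun_prop
    · fun_prop

@[fun_prop]
theorem PolyF.pchain {r : α → Rec BZ} {C : α → List (Cap BZ)} {k : α → ℕ} (hr : PolyF r)
    (hC : PolyF C) (hk : PolyF k) : PolyF (fun a => pchain (r a) (C a) (k a)) := by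
  unfold MP_bd4052_lc.pchain
  fun_prop

/-! ### moving systems of constraints -/

/-- all constraints of a list are small -/
def SmallC (B : ℕ) (L : List (Con BZ)) : Prop := ∀ c ∈ L, c.1 ≤ B ∧ bsz c.2 ≤ B

theorem sz_of_small {B : ℕ} {L : List (Con BZ)} (h : SmallC B L) :
    sz L ≤ L.length * (10 * B + 6) + 1 := by
  induction L with
  | nil => simp
  | cons c L ih =>
    have h1 := h c (by simp)
    have h2 := ih (fun c' hc' => h c' (by simp [hc']))
    have h3 := sz_le_bsz c.2
    have h4 : sz c = sz c.1 + sz c.2 + 1 := rfl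
    have h5 : sz c.1 = 2 * c.1 + 1 := by simp
    have h6 := Nat.succ_mul L.length (10 * B + 6)
    simp only [sz_cons, List.length_cons]
    rw [Nat.succ_eq_add_one] at h6
    rw [h6]
    omega

theorem small_of_sz (L : List (Con BZ)) : SmallC (sz L) L := by
  intro c hc
  have h1 := sz_le_of_mem hc
  have h2 := bsz_le_sz c.2
  have h4 : sz c = sz c.1 + sz c.2 + 1 := rfl
  have h5 : sz c.1 = 2 * c.1 + 1 := by simp
  omega

theorem small_creflect {B D : ℕ} {L : List (Con BZ)} (h : SmallC B L) (j : ℕ) (d : BZ)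
    (hd : bsz d ≤ D) (hDB : D ≤ B) (h8 : 8 ≤ B) : SmallC (B + 2) (L.map (creflect j d)) := by
  intro c hc
  rw [List.mem_map] at hc
  obtain ⟨c', hc', rfl⟩ := hc
  have h1 := h c' hc'
  have h2 := bsz_nlam c'.1 j c'.2 d
  refine ⟨?_, ?_⟩
  · show (2 * j + 12 - c'.1) % 8 ≤ B + 2
    omega
  · show bsz (nlam c'.1 j c'.2 d) ≤ B + 2
    omega

theorem small_move {D : ℕ} {C : List (Cap BZ)} (hC : ∀ i, bsz (capAt C i).1.2 ≤ D) :
    ∀ (ch : List ℕ) (B : ℕ) (L : List (Con BZ)), D ≤ B → 8 ≤ B → SmallC B L →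
      SmallC (B + 2 * ch.length)
        (ch.foldl (fun L j => L.map (creflect (capAt C j).1.1 (capAt C j).1.2)) L) ∧
      (ch.foldl (fun L j => L.map (creflect (capAt C j).1.1 (capAt C j).1.2)) L).length =
        L.length := by
  intro ch
  induction ch with
  | nil =>
    intro B L _ _ h
    exact ⟨h, rfl⟩
  | cons j ch ih =>
    intro B L hDB h8 h
    have h1 := ih (B + 2) (L.map (creflect (capAt C j).1.1 (capAt C j).1.2)) (by omega) (by omega)
      (small_creflect h _ _ (hC j) hDB h8)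
    simp only [List.foldl_cons, List.length_cons]
    refine ⟨?_, ?_⟩
    · rw [show B + 2 * (ch.length + 1) = B + 2 + 2 * ch.length by ring]
      exact h1.1
    · rw [h1.2]
      simp

theorem bsz_capAt (C : List (Cap BZ)) (i : ℕ) : bsz (capAt C i).1.2 ≤ sz C := by
  unfold capAt
  by_cases h : i < C.length
  · rw [List.getD_eq_getElem _ _ h]
    have h1 := sz_le_of_mem (List.getElem_mem h)
    have h2 := bsz_le_sz C[i].1.2
    have h3 : sz C[i] = sz C[i].1 + sz C[i].2 + 1 := rfl
    have h4 : sz C[i].1 = sz C[i].1.1 + sz C[i].1.2 + 1 := rfl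
    omega
  · rw [List.getD_eq_default _ _ (by omega)]
    show bsz ((⟨0⟩, ⟨0⟩) : BZ) ≤ sz C
    simp [bsz]

@[fun_prop]
theorem PolyF.move {C : α → List (Cap BZ)} {ch : α → List ℕ} {L : α → List (Con BZ)}
    (hC : PolyF C) (hch : PolyF ch) (hL : PolyF L) :
    PolyF (fun a => (move (C a) (ch a) (L a) : List (Con BZ))) := by
  refine PolyF.comp (f := fun p : List (Cap BZ) × List ℕ × List (Con BZ) =>
    MP_bd4052_lc.move p.1 p.2.1 p.2.2) (g := fun a => (C a, ch a, L a)) ?_ (by fun_prop)
  unfold MP_bd4052_lc.move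
  have hstep : PolyF (fun q : (List (Cap BZ) × List ℕ × List (Con BZ)) × List (Con BZ) × ℕ =>
      q.2.1.map (MP_bd4052_lc.creflect (MP_bd4052_lc.capAt q.1.1 q.2.2).1.1
        (MP_bd4052_lc.capAt q.1.1 q.2.2).1.2)) := by
    refine PolyF.map (by fun_prop) ?_
    fun_prop
  refine PolyF.foldl (l := fun p : List (Cap BZ) × List ℕ × List (Con BZ) => p.2.1)
    (g := fun p => p.2.2)
    (h := fun p L j => L.map (MP_bd4052_lc.creflect (MP_bd4052_lc.capAt p.1 j).1.1
      (MP_bd4052_lc.capAt p.1 j).1.2))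
    (by fun_prop) (by fun_prop) hstep (X * (40 * X + 86) + 1) ?_
  rintro ⟨C, ch, L⟩ j hj
  simp only at hj ⊢
  have h1 := small_move (D := sz C) (bsz_capAt C) (ch.take j) (sz C + sz L + 8) L (by omega)
    (by omega) (fun c hc => by
      have := small_of_sz L c hc
      omega)
  have h2 := sz_of_small h1.1
  have h3 := h1.2
  refine h2.trans ?_
  rw [h3]
  have h4 : sz ((C, ch, L) : List (Cap BZ) × List ℕ × List (Con BZ)) = sz C + (sz ch + sz L + 1) + 1 :=
    rfl
  have h5 := length_lt_sz ch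
  have h6 := length_lt_sz L
  have h7 : (ch.take j).length ≤ sz ch := by simp; omega
  simp only [eval_add, eval_mul, eval_ofNat, eval_X, eval_one]
  refine Nat.succ_le_succ (Nat.mul_le_mul (by omega) (by omega))

@[fun_prop]
theorem PolyF.region {r : α → Rec BZ} {C : α → List (Cap BZ)} {dn : α → List ℕ} {k : α → ℕ}
    (hr : PolyF r) (hC : PolyF C) (hd : PolyF dn) (hk : PolyF k) :
    PolyF (fun a => (region (r a) (C a) (dn a) (k a) : List (Con BZ))) := by
  unfold MP_bd4052_lc.region
  fun_prop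

@[fun_prop]
theorem PolyF.rotreg {r : α → Rec BZ} {C : α → List (Cap BZ)} {k e : α → ℕ}
    (hr : PolyF r) (hC : PolyF C) (hk : PolyF k) (he : PolyF e) :
    PolyF (fun a => (rotreg (r a) (C a) (k a) (e a) : List (Con BZ))) := by
  unfold MP_bd4052_lc.rotreg
  fun_prop

@[fun_prop]
theorem PolyF.side {r : α → Rec BZ} {C : α → List (Cap BZ)} {dn dp : α → List ℕ} {k : α → ℕ}
    {up : α → Bool} (hr : PolyF r) (hC : PolyF C) (hd : PolyF dn) (hp : PolyF dp) (hk : PolyF k)
    (hu : PolyF up) : PolyF (fun a => side (r a) (C a) (dn a) (dp a) (k a) (up a)) := by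
  unfold MP_bd4052_lc.side
  refine PolyF.append ?_ (PolyF.cond (by fun_prop) (by fun_prop) (PolyF.cond (by fun_prop)
    (by fun_prop) ?_))
  · refine PolyF.map ?_ (by fun_prop)
    refine PolyF.filter (by fun_prop) ?_
    fun_prop
  · refine PolyF.cons (by fun_prop) ?_
    refine PolyF.map ?_ (by fun_prop)
    refine PolyF.filter (by fun_prop) ?_
    fun_prop

@[fun_prop]
theorem PolyF.unblocked {r : α → Rec BZ} {C : α → List (Cap BZ)} {dn dp : α → List ℕ}
    {k e : α → ℕ} (hr : PolyF r) (hC : PolyF C) (hd : PolyF dn) (hp : PolyF dp) (hk : PolyF k)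
    (he : PolyF e) : PolyF (fun a => unblocked (r a) (C a) (dn a) (dp a) (k a) (e a)) := by
  unfold MP_bd4052_lc.unblocked
  refine PolyF.all (by fun_prop) ?_
  fun_prop

/-! ### the search -/

@[fun_prop]
theorem PolyF.inCorner {r : α → Rec BZ} {C : α → List (Cap BZ)} {c e : α → ℕ} (hr : PolyF r)
    (hC : PolyF C) (hc : PolyF c) (he : PolyF e) :
    PolyF (fun a => inCorner (r a) (C a) (c a) (e a)) := by
  unfold MP_bd4052_lc.inCorner
  fun_prop

@[fun_prop]
theorem PolyF.made {r : α → Rec BZ} {C : α → List (Cap BZ)} {T : α → List ℕ} (hr : PolyF r)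
    (hC : PolyF C) (hT : PolyF T) : PolyF (fun a => made (r a) (C a) (T a)) := by
  unfold MP_bd4052_lc.made
  refine PolyF.filter (by fun_prop) ?_
  refine PolyF.any (by fun_prop) ?_
  fun_prop

@[fun_prop]
theorem PolyF.cornerOf {r : α → Rec BZ} {C : α → List (Cap BZ)} {e : α → ℕ} (hr : PolyF r)
    (hC : PolyF C) (he : PolyF e) : PolyF (fun a => cornerOf (r a) (C a) (e a)) := by
  unfold MP_bd4052_lc.cornerOf
  fun_prop

@[fun_prop]
theorem PolyF.okStep {r : α → Rec BZ} {C : α → List (Cap BZ)} {s : α → St} {e : α → ℕ}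
    (hr : PolyF r) (hC : PolyF C) (hs : PolyF s) (he : PolyF e) :
    PolyF (fun a => okStep (r a) (C a) (s a) (e a)) := by
  unfold MP_bd4052_lc.okStep
  refine PolyF.and (PolyF.and (by fun_prop) ?_) ?_
  · refine PolyF.all (by fun_prop) ?_
    fun_prop
  · fun_prop

@[fun_prop]
theorem PolyF.newTips {r : α → Rec BZ} {C : α → List (Cap BZ)} {T : α → List ℕ} {e : α → ℕ}
    (hr : PolyF r) (hC : PolyF C) (hT : PolyF T) (he : PolyF e) :
    PolyF (fun a => newTips (r a) (C a) (T a) (e a)) := by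
  unfold MP_bd4052_lc.newTips
  refine PolyF.map (by fun_prop) ?_
  fun_prop

@[fun_prop]
theorem PolyF.doStep {r : α → Rec BZ} {C : α → List (Cap BZ)} {s : α → St} {e : α → ℕ}
    (hr : PolyF r) (hC : PolyF C) (hs : PolyF s) (he : PolyF e) :
    PolyF (fun a => doStep (r a) (C a) (s a) (e a)) := by
  unfold MP_bd4052_lc.doStep
  refine PolyF.pair (by fun_prop) ?_
  refine PolyF.map (by fun_prop) ?_
  fun_prop

theorem PolyF.tuples {l : α → List β} (hl : PolyF l) (n : ℕ) :
    PolyF (fun a => tuples (l a) n) := by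
  induction n with
  | zero =>
    unfold MP_bd4052_lc.tuples
    fun_prop
  | succ n ih =>
    unfold MP_bd4052_lc.tuples
    refine PolyF.flatMap ih ?_
    refine PolyF.map (by fun_prop) ?_
    fun_prop

@[fun_prop]
theorem PolyF.allSt {m : α → ℕ} (hm : PolyF m) : PolyF (fun a => allSt (m a)) := by
  refine PolyF.comp (f := fun m : ℕ => MP_bd4052_lc.allSt m) ?_ hm
  unfold MP_bd4052_lc.allSt
  have h1 : PolyF (fun m : ℕ => MP_bd4052_lc.tuples (List.range (m + 1)) 4) :=
    PolyF.tuples (by fun_prop) 4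
  have h2 : PolyF (fun m : ℕ => MP_bd4052_lc.tuples (MP_bd4052_lc.tuples (List.range (m + 1)) 4) 4) :=
    PolyF.tuples h1 4
  refine PolyF.flatMap h1 ?_
  refine PolyF.map ?_ ?_
  · exact PolyF.comp (f := fun m : ℕ =>
      MP_bd4052_lc.tuples (MP_bd4052_lc.tuples (List.range (m + 1)) 4) 4)
      (g := fun p : ℕ × List ℕ => p.1) h2 (by fun_prop)
  · fun_prop

@[fun_prop]
theorem PolyF.nextSt {r : α → Rec BZ} {C : α → List (Cap BZ)} {l : α → List St}
    (hr : PolyF r) (hC : PolyF C) (hl : PolyF l) :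
    PolyF (fun a => nextSt (r a) (C a) (l a)) := by
  unfold MP_bd4052_lc.nextSt
  refine PolyF.filter (by fun_prop) ?_
  refine PolyF.any (by fun_prop) ?_
  refine PolyF.any (by fun_prop) ?_
  fun_prop

theorem sz_filter_le {l : List β} (p : β → Bool) : sz (l.filter p) ≤ sz l := by
  induction l with
  | nil => simp
  | cons b l ih =>
    rw [List.filter_cons]
    cases p b
    · simp only [Bool.false_eq_true, if_false, sz_cons]
      omega
    · simp only [if_true, sz_cons]
      omega

@[fun_prop]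
theorem PolyF.searchAll {r : α → Rec BZ} {C : α → List (Cap BZ)} (hr : PolyF r)
    (hC : PolyF C) : PolyF (fun a => searchAll (r a) (C a)) := by
  refine PolyF.comp (f := fun p : Rec BZ × List (Cap BZ) => MP_bd4052_lc.searchAll p.1 p.2)
    (g := fun a => (r a, C a)) ?_ (by fun_prop)
  unfold MP_bd4052_lc.searchAll
  refine PolyF.not (PolyF.isEmpty ?_)
  have hA : PolyF (fun p : Rec BZ × List (Cap BZ) => MP_bd4052_lc.allSt p.2.length) := by fun_prop
  obtain ⟨q, hq⟩ := hA.size
  have hstep : PolyF (fun p : (Rec BZ × List (Cap BZ)) × List St × ℕ =>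
      MP_bd4052_lc.nextSt p.1.1 p.1.2 p.2.1) := by fun_prop
  refine PolyF.foldl (l := fun p : Rec BZ × List (Cap BZ) => List.range p.2.length)
    (g := fun _ => [initSt]) (h := fun p l _ => MP_bd4052_lc.nextSt p.1 p.2 l)
    (by fun_prop) (by fun_prop) hstep (q + Polynomial.C (sz [initSt])) ?_
  rintro p j -
  simp only [eval_add, eval_C]
  rcases List.eq_nil_or_concat ((List.range p.2.length).take j) with h | ⟨l, b, h⟩
  · rw [h]
    simp only [List.foldl_nil]
    omega
  · rw [h, List.concat_eq_append, List.foldl_append]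
    simp only [List.foldl_cons, List.foldl_nil]
    have h1 : sz (MP_bd4052_lc.nextSt p.1 p.2 (l.foldl (fun l _ => MP_bd4052_lc.nextSt p.1 p.2 l)
        [initSt])) ≤ sz (MP_bd4052_lc.allSt p.2.length) := sz_filter_le _
    have h2 := hq p
    omega

/-! ### creases -/

@[fun_prop]
theorem PolyF.lineOf {c : α → Cr BZ} (hc : PolyF c) :
    PolyF (fun a => (lineOf (c a) : Con BZ)) := by
  unfold MP_bd4052_lc.lineOf
  fun_prop

@[fun_prop]
theorem PolyF.leq' {c d : α → Con BZ} (hc : PolyF c) (hd : PolyF d) :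
    PolyF (fun a => leq (c a) (d a)) := by
  unfold MP_bd4052_lc.leq
  fun_prop

@[fun_prop]
theorem PolyF.tcoord {i : α → ℕ} {p : α → BZ × BZ} (hi : PolyF i) (hp : PolyF p) :
    PolyF (fun a => (tcoord (i a) (p a) : BZ)) := by
  unfold MP_bd4052_lc.tcoord
  fun_prop

@[fun_prop]
theorem PolyF.lowEnd {c : α → Cr BZ} (hc : PolyF c) :
    PolyF (fun a => (lowEnd (c a) : BZ × BZ)) := by
  unfold MP_bd4052_lc.lowEnd
  fun_prop

@[fun_prop]
theorem PolyF.highEnd {c : α → Cr BZ} (hc : PolyF c) :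
    PolyF (fun a => (highEnd (c a) : BZ × BZ)) := by
  unfold MP_bd4052_lc.highEnd
  fun_prop

@[fun_prop]
theorem PolyF.onBd {r : α → Rec BZ} {p : α → BZ × BZ} (hr : PolyF r) (hp : PolyF p) :
    PolyF (fun a => onBd (r a) (p a)) := by
  unfold MP_bd4052_lc.onBd
  fun_prop

@[fun_prop]
theorem PolyF.propCr {r : α → Rec BZ} {L : α → List (Cr BZ)} (hr : PolyF r) (hL : PolyF L) :
    PolyF (fun a => (propCr (r a) (L a) : List (Cr BZ))) := by
  unfold MP_bd4052_lc.propCr
  refine PolyF.filter (by fun_prop) ?_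
  fun_prop

@[fun_prop]
theorem PolyF.creOK {r : α → Rec BZ} {L : α → List (Cr BZ)} (hr : PolyF r) (hL : PolyF L) :
    PolyF (fun a => creOK (r a) (L a)) := by
  unfold MP_bd4052_lc.creOK
  refine PolyF.all (by fun_prop) ?_
  refine PolyF.and (PolyF.and ?_ ?_) (PolyF.or (by fun_prop) ?_)
  · refine PolyF.all (by fun_prop) ?_
    fun_prop
  · refine PolyF.any (by fun_prop) ?_
    fun_prop
  · refine PolyF.any (by fun_prop) ?_
    fun_prop

@[fun_prop]
theorem PolyF.chords {r : α → Rec BZ} {L : α → List (Cr BZ)} (hr : PolyF r) (hL : PolyF L) :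
    PolyF (fun a => (chords (r a) (L a) : List (Cap BZ))) := by
  unfold MP_bd4052_lc.chords
  have hC : PolyF (fun c : Cr BZ => ((MP_bd4052_lc.lineOf c, c.2) : Cap BZ)) := by fun_prop
  obtain ⟨q, hq⟩ := hC.size
  have hP : PolyF (fun a => (MP_bd4052_lc.propCr (r a) (L a) : List (Cr BZ))) := by fun_prop
  obtain ⟨q', hq'⟩ := hP.size
  refine PolyF.foldl_add (l := fun a => (MP_bd4052_lc.propCr (r a) (L a) : List (Cr BZ)))
    (g := fun _ => []) (h := fun _ acc c => bif acc.any (fun e => leq e.1 (MP_bd4052_lc.lineOf c))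
      then acc else acc ++ [((MP_bd4052_lc.lineOf c, c.2) : Cap BZ)])
    (by fun_prop) (by fun_prop) ?_ (q.comp q' + 3) ?_
  · refine PolyF.cond ?_ (by fun_prop) (by fun_prop)
    refine PolyF.any (by fun_prop) ?_
    fun_prop
  · intro a s b hb
    have h1 := sz_le_of_mem hb
    have h2 := hq' a
    have h3 := hq b
    have h4 : q.eval (sz b) ≤ (q.comp q').eval (sz a) := by
      rw [eval_comp]
      exact poly_mono _ (by omega)
    have h5 := sz_append s [((MP_bd4052_lc.lineOf b, b.2) : Cap BZ)]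
    simp only [eval_add, eval_ofNat]
    cases (s.any fun e => leq e.1 (MP_bd4052_lc.lineOf b))
    · simp only [cond_false]
      simp only [sz_cons, sz_nil] at h5
      omega
    · simp only [cond_true]
      omega

@[fun_prop]
theorem PolyF.orient {r : α → Rec BZ} {c d : α → Cap BZ} (hr : PolyF r) (hc : PolyF c)
    (hd : PolyF d) : PolyF (fun a => (orient (r a) (c a) (d a) : Cap BZ)) := by
  unfold MP_bd4052_lc.orient
  fun_prop

theorem stmt_POLY : Stmt_POLY := by
  unfold Stmt_POLY MP_bd4052_lc.alg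
  refine PolyF.and (by fun_prop) (PolyF.or (by fun_prop) ?_)
  refine PolyF.any (by fun_prop) ?_
  have h1 : PolyF (fun p : (Rec BZ × List (Cr BZ)) × Cap BZ =>
      ((MP_bd4052_lc.chords p.1.1 p.1.2).map (MP_bd4052_lc.orient p.1.1 p.2) : List (Cap BZ))) := by
    refine PolyF.map (by fun_prop) ?_
    fun_prop
  have h2 : PolyF (fun p : (Rec BZ × List (Cr BZ)) × Cap BZ =>
      ((MP_bd4052_lc.chords p.1.1 p.1.2).map
        (MP_bd4052_lc.orient p.1.1 (MP_bd4052_lc.cneg p.2.1, p.2.2)) : List (Cap BZ))) := by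
    refine PolyF.map (by fun_prop) ?_
    fun_prop
  refine PolyF.or (PolyF.and ?_ ?_) (PolyF.and ?_ ?_)
  · exact PolyF.laminar (by fun_prop) h1
  · exact PolyF.searchAll (by fun_prop) h1
  · exact PolyF.laminar (by fun_prop) h2
  · exact PolyF.searchAll (by fun_prop) h2

end PO

end Pool.Agent.Work.MP_bd4052_lc
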